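import Pool.Agent.Results.MP_6562b9_an.WeakType

/-!
# Roots of polynomials depending on several parameters: weak-type bound for the gradient

The partial derivatives of every continuous root on a box of `ℝ^m` (any number `m` of parameters) of
a monic polynomial of degree `n`, whose coefficients are only required to be of class `C^{n-1,1}`
along the lines parallel to the axis, are in weak `L^{n/(n-1)}`, with an explicit bound; for `m = 1`
this is the full answer to Q1 and Q2. On an open set with coefficients of class `C^n` all partial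
derivatives are locally in weak `L^{n/(n-1)}`.
-/

set_option autoImplicit false

namespace Pool.Agent.Results.MP_6562b9_an.SeveralVariables

open Set MeasureTheory Filter Topology Pool.Agent.Results.MP_6562b9_an.WeakType
open scoped ENNReal NNReal

/-- The open box `∏ (α k, β k)` of `ℝ^m`. -/
def box {m : ℕ} (α β : Fin m → ℝ) : Set (Fin m → ℝ) := Set.univ.pi fun k => Ioo (α k) (β k)

/-- The partial derivative in the direction of the `i`-th axis (`0` where it does not exist). -/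
noncomputable def pderiv {m : ℕ} (i : Fin m) (f : (Fin m → ℝ) → ℂ) (x : Fin m → ℝ) : ℂ :=
  deriv (fun t : ℝ => f (Function.update x i t)) (x i)

/-- The weak Lebesgue quasinorm with exponent `p` on a set `Q` of `ℝ^m`, as an element of `[0,∞]`. -/
noncomputable def weakNormIn {m : ℕ} (p : ℝ) (Q : Set (Fin m → ℝ)) (f : (Fin m → ℝ) → ℂ) : ℝ≥0∞ :=
  ⨆ s : ℝ, ⨆ _ : 0 < s, ENNReal.ofReal s * volume {x | x ∈ Q ∧ s < ‖f x‖} ^ (1 / p)

/-- the retraction onto a closed ball of the supremum norm -/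
noncomputable def clamp {m : ℕ} (x0 : Fin m → ℝ) (r : ℝ) (x : Fin m → ℝ) : Fin m → ℝ :=
  fun j => max (x0 j - r) (min (x0 j + r) (x j))

theorem clamp_continuous {m : ℕ} (x0 : Fin m → ℝ) (r : ℝ) : Continuous (clamp x0 r) := by
  unfold clamp
  fun_prop

theorem clamp_mem {m : ℕ} (x0 : Fin m → ℝ) (r : ℝ) (hr : 0 ≤ r) (x : Fin m → ℝ) :
    clamp x0 r x ∈ Metric.closedBall x0 r := by
  rw [Metric.mem_closedBall, dist_pi_le_iff hr]
  intro j
  rw [Real.dist_eq, abs_le]
  unfold clamp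
  constructor
  · have := le_max_left (x0 j - r) (min (x0 j + r) (x j))
    linarith
  · have : max (x0 j - r) (min (x0 j + r) (x j)) ≤ x0 j + r :=
      max_le (by linarith) (min_le_left _ _)
    linarith

theorem clamp_eq {m : ℕ} (x0 : Fin m → ℝ) (r : ℝ) (hr : 0 < r) {x : Fin m → ℝ}
    (hx : x ∈ Metric.ball x0 r) : clamp x0 r x = x := by
  funext j
  rw [Metric.mem_ball, dist_pi_lt_iff hr] at hx
  have h := hx j
  rw [Real.dist_eq, abs_lt] at h
  unfold clamp
  rw [min_eq_right (by linarith), max_eq_right (by linarith)]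

theorem pderiv_measurable {m : ℕ} (i : Fin m) {f : (Fin m → ℝ) → ℂ} (hf : Continuous f) :
    Measurable (pderiv i f) := by
  have h1 : Continuous (Function.uncurry fun (x : Fin m → ℝ) (t : ℝ) => f (Function.update x i t)) := by
    apply hf.comp
    exact continuous_fst.update i continuous_snd
  have h2 := measurable_deriv_with_param h1
  exact h2.comp (measurable_id.prodMk (measurable_pi_apply i))

theorem meas_set {m : ℕ} {Q : Set (Fin m → ℝ)} (hQ : IsOpen Q) {f : (Fin m → ℝ) → ℂ}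
    (hf : ContinuousOn f Q) (i : Fin m) (s : ℝ) :
    MeasurableSet {x | x ∈ Q ∧ s < ‖pderiv i f x‖} := by
  have h1 : ∀ x : Q, ∃ r > 0, Metric.closedBall (x : Fin m → ℝ) r ⊆ Q := fun x =>
    Metric.nhds_basis_closedBall.mem_iff.1 (hQ.mem_nhds x.2)
  choose r hr hrQ using h1
  obtain ⟨T, hT, hTU⟩ := TopologicalSpace.isOpen_iUnion_countable
    (fun x : Q => Metric.ball (x : Fin m → ℝ) (r x)) (fun x => Metric.isOpen_ball)
  have h2 : {x | x ∈ Q ∧ s < ‖pderiv i f x‖} =
      ⋃ x ∈ T, (Metric.ball (x : Fin m → ℝ) (r x) ∩ {y | s < ‖pderiv i f y‖}) := by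
    ext y
    simp only [mem_ofPred_eq, mem_iUnion, mem_inter_iff, exists_prop]
    constructor
    · rintro ⟨hy, hs⟩
      have h3 : y ∈ ⋃ x : Q, Metric.ball (x : Fin m → ℝ) (r x) :=
        mem_iUnion.2 ⟨⟨y, hy⟩, Metric.mem_ball_self (hr _)⟩
      rw [← hTU] at h3
      simp only [mem_iUnion, exists_prop] at h3
      obtain ⟨x, hx, hyx⟩ := h3
      exact ⟨x, hx, hyx, hs⟩
    · rintro ⟨x, _, hyx, hs⟩
      exact ⟨hrQ x (Metric.ball_subset_closedBall hyx), hs⟩
  rw [h2]
  apply MeasurableSet.biUnion hT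
  intro x _
  set g : (Fin m → ℝ) → ℂ := fun y => f (clamp (x : Fin m → ℝ) (r x) y) with hg
  have hgc : Continuous g := by
    have h4 : ContinuousOn f (Metric.closedBall (x : Fin m → ℝ) (r x)) := hf.mono (hrQ x)
    exact h4.comp_continuous (clamp_continuous _ _) (clamp_mem _ _ (hr x).le)
  have h3 : Metric.ball (x : Fin m → ℝ) (r x) ∩ {y | s < ‖pderiv i f y‖} =
      Metric.ball (x : Fin m → ℝ) (r x) ∩ {y | s < ‖pderiv i g y‖} := by
    ext y
    simp only [mem_inter_iff, mem_ofPred_eq]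
    apply and_congr_right
    intro hy
    have h5 : pderiv i f y = pderiv i g y := by
      unfold pderiv
      apply Filter.EventuallyEq.deriv_eq
      have h6 : Continuous fun t : ℝ => Function.update y i t := continuous_const.update i continuous_id
      have h7 : ∀ᶠ t in 𝓝 (y i), Function.update y i t ∈ Metric.ball (x : Fin m → ℝ) (r x) := by
        apply h6.continuousAt.eventually_mem
        apply Metric.isOpen_ball.mem_nhds
        rw [Function.update_eq_self]
        exact hy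
      filter_upwards [h7] with t ht
      rw [hg]
      simp only
      rw [clamp_eq _ _ (hr x) ht]
    rw [h5]
  rw [h3]
  apply measurableSet_ball.inter
  exact measurableSet_lt measurable_const (pderiv_measurable i hgc).norm

/-- The estimate of one partial derivative, in `m = k + 1` variables. -/
theorem main {n : ℕ} {C : ℝ≥0} (hn : 2 ≤ n)
    (hC : ∀ α β : ℝ, α < β → ∀ a : ℕ → ℝ → ℂ,
      (∀ j ∈ Finset.Icc 1 n, HolderClass (n - 1) α β (a j)) →
      ∀ lam : ℝ → ℂ, ContinuousOn lam (Ioo α β) →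
      (∀ t ∈ Ioo α β, lam t ^ n + ∑ j ∈ Finset.Icc 1 n, a j t * lam t ^ (n - j) = 0) →
      weakNorm ((n:ℝ) / ((n:ℝ) - 1)) (Ioo α β) (deriv lam) ≤
        C * max 1 (ENNReal.ofReal (β - α) ^ (((n:ℝ) - 1) / n)) *
          ⨆ j ∈ Finset.Icc 1 n, holderNorm (n - 1) α β (a j) ^ (1 / (j:ℝ)))
    (k : ℕ) (α β : Fin (k + 1) → ℝ) (hαβ : ∀ l, α l < β l) (a : ℕ → (Fin (k + 1) → ℝ) → ℂ)
    (lam : (Fin (k + 1) → ℝ) → ℂ) (hlam : ContinuousOn lam (box α β))
    (hroot : ∀ x ∈ box α β, lam x ^ n + ∑ j ∈ Finset.Icc 1 n, a j x * lam x ^ (n - j) = 0)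
    (i : Fin (k + 1))
    (ha : ∀ j ∈ Finset.Icc 1 n, ∀ x ∈ box α β,
      HolderClass (n - 1) (α i) (β i) (fun t => a j (Function.update x i t))) :
    weakNormIn ((n:ℝ) / ((n:ℝ) - 1)) (box α β) (pderiv i lam) ≤
      (C * max 1 (ENNReal.ofReal (β i - α i) ^ (((n:ℝ) - 1) / n)) *
        ⨆ j ∈ Finset.Icc 1 n, ⨆ x ∈ box α β,
          holderNorm (n - 1) (α i) (β i) (fun t => a j (Function.update x i t)) ^ (1 / (j:ℝ))) *
      (∏ l : Fin k, ENNReal.ofReal (β (i.succAbove l) - α (i.succAbove l))) ^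
        (((n:ℝ) - 1) / n) := by
  have hn' : (2:ℝ) ≤ n := by exact_mod_cast hn
  set p : ℝ := (n:ℝ) / ((n:ℝ) - 1) with hp
  set θ : ℝ := ((n:ℝ) - 1) / n with hθ
  have hn1 : (0:ℝ) < (n:ℝ) - 1 := by linarith
  have hn0 : (0:ℝ) < n := by linarith
  have hp0 : 0 < p := div_pos hn0 hn1
  have hθ0 : 0 < θ := div_pos hn1 hn0
  have hpθ : 1 / p = θ := by rw [hp, hθ, one_div_div]
  have hpθ' : p * θ = 1 := by rw [hp, hθ]; field_simp
  set B : ℝ≥0∞ := C * max 1 (ENNReal.ofReal (β i - α i) ^ θ) *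
        ⨆ j ∈ Finset.Icc 1 n, ⨆ x ∈ box α β,
          holderNorm (n - 1) (α i) (β i) (fun t => a j (Function.update x i t)) ^ (1 / (j:ℝ)) with hB
  set V : ℝ≥0∞ := ∏ l : Fin k, ENNReal.ofReal (β (i.succAbove l) - α (i.succAbove l)) with hV
  have hV0 : V ≠ 0 := by
    rw [hV, Finset.prod_ne_zero_iff]
    intro l _
    have := hαβ (i.succAbove l)
    simp only [ne_eq, ENNReal.ofReal_eq_zero, not_le]
    linarith
  have hVtop : V ≠ ⊤ := ENNReal.prod_ne_top fun l _ => ENNReal.ofReal_ne_top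
  rcases eq_or_ne B ⊤ with hBt | hBt
  · rw [hBt, ENNReal.top_mul]
    · exact le_top
    · rw [ne_eq, ENNReal.rpow_eq_zero_iff]
      push Not
      exact ⟨fun h => absurd h hV0, fun h => absurd h hVtop⟩
  unfold weakNormIn
  refine iSup₂_le fun s hs => ?_
  rw [hpθ]
  have hopen : IsOpen (box α β) := isOpen_set_pi finite_univ fun l _ => isOpen_Ioo
  have hmeas := meas_set hopen hlam i s
  set S : Set (Fin (k + 1) → ℝ) := {x | x ∈ box α β ∧ s < ‖pderiv i lam x‖} with hS
  have hs' : ENNReal.ofReal s ≠ 0 := by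
    simp only [ne_eq, ENNReal.ofReal_eq_zero, not_le]; exact hs
  set M : ℝ≥0∞ := (B / ENNReal.ofReal s) ^ p with hM
  set W : Set (Fin k → ℝ) := Set.univ.pi fun l => Ioo (α (i.succAbove l)) (β (i.succAbove l)) with hW
  have hWm : MeasurableSet W := MeasurableSet.univ_pi fun l => measurableSet_Ioo
  have hWV : volume W = V := by rw [hW, Real.volume_pi_Ioo]
  -- membership of the box
  have hmem : ∀ (t : ℝ) (y : Fin k → ℝ), (i.insertNth t y : Fin (k + 1) → ℝ) ∈ box α β ↔
      t ∈ Ioo (α i) (β i) ∧ y ∈ W := by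
    intro t y
    unfold box
    simp only [Set.mem_pi, mem_univ, forall_const, hW]
    rw [Fin.forall_iff_succAbove i]
    simp only [Fin.insertNth_apply_same, Fin.insertNth_apply_succAbove]
  have hslice : ∀ y : Fin k → ℝ, volume {t : ℝ | (i.insertNth t y : Fin (k + 1) → ℝ) ∈ S} ≤
      W.indicator (fun _ => M) y := by
    intro y
    by_cases hy : y ∈ W
    · rw [indicator_of_mem hy]
      have hne : (α i + β i) / 2 ∈ Ioo (α i) (β i) := by
        have := hαβ i
        constructor <;> linarith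
      have hx0 : (i.insertNth ((α i + β i) / 2) y : Fin (k + 1) → ℝ) ∈ box α β :=
        (hmem _ _).2 ⟨hne, hy⟩
      have hup : ∀ t : ℝ, Function.update (i.insertNth ((α i + β i) / 2) y : Fin (k + 1) → ℝ) i t =
          i.insertNth t y := fun t => Fin.update_insertNth _ _ _ _
      have h1 := hC (α i) (β i) (hαβ i) (fun j t => a j (i.insertNth t y)) (by
          intro j hj
          have := ha j hj _ hx0
          simpa only [hup] using this) (fun t => lam (i.insertNth t y)) (by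
          apply hlam.comp
          · have h0 : Continuous fun t : ℝ => (i.insertNth t y : Fin (k + 1) → ℝ) := by
              refine continuous_pi fun l => ?_
              rcases Fin.eq_self_or_eq_succAbove i l with rfl | ⟨l', rfl⟩
              · simp only [Fin.insertNth_apply_same]
                exact continuous_id
              · simp only [Fin.insertNth_apply_succAbove]
                exact continuous_const
            exact h0.continuousOn
          · intro t ht
            exact (hmem _ _).2 ⟨ht, hy⟩) (by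
          intro t ht
          exact hroot _ ((hmem _ _).2 ⟨ht, hy⟩))
      have h2 : weakNorm p (Ioo (α i) (β i)) (deriv fun t => lam (i.insertNth t y)) ≤ B := by
        refine h1.trans ?_
        rw [hB]
        gcongr with j hj
        refine le_trans ?_ (le_iSup₂ (f := fun (x : Fin (k + 1) → ℝ) (_ : x ∈ box α β) =>
          holderNorm (n - 1) (α i) (β i) (fun t => a j (Function.update x i t)) ^ (1 / (j:ℝ)))
          _ hx0)
        simp only [hup, le_refl]
      have h3 : {t : ℝ | (i.insertNth t y : Fin (k + 1) → ℝ) ∈ S} =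
          {t | t ∈ Ioo (α i) (β i) ∧ s < ‖deriv (fun t => lam (i.insertNth t y)) t‖} := by
        ext t
        simp only [hS, mem_ofPred_eq, hmem]
        have h4 : pderiv i lam (i.insertNth t y) = deriv (fun t => lam (i.insertNth t y)) t := by
          unfold pderiv
          simp only [Fin.update_insertNth, Fin.insertNth_apply_same]
        rw [h4]
        constructor
        · rintro ⟨⟨h5, _⟩, h6⟩; exact ⟨h5, h6⟩
        · rintro ⟨h5, h6⟩; exact ⟨⟨h5, hy⟩, h6⟩
      rw [h3]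
      have h4 : ENNReal.ofReal s *
          volume {t | t ∈ Ioo (α i) (β i) ∧ s < ‖deriv (fun t => lam (i.insertNth t y)) t‖} ^ θ ≤ B := by
        refine le_trans ?_ h2
        unfold weakNorm
        rw [hpθ]
        exact le_iSup₂ (f := fun (s : ℝ) (_ : 0 < s) => ENNReal.ofReal s *
          volume {t | t ∈ Ioo (α i) (β i) ∧ s < ‖deriv (fun t => lam (i.insertNth t y)) t‖} ^ θ) s hs
      have h5 : volume {t | t ∈ Ioo (α i) (β i) ∧ s < ‖deriv (fun t => lam (i.insertNth t y)) t‖} ^ θ ≤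
          B / ENNReal.ofReal s := by
        rw [ENNReal.le_div_iff_mul_le (Or.inl hs') (Or.inl ENNReal.ofReal_ne_top), mul_comm]
        exact h4
      have h6 := ENNReal.rpow_le_rpow h5 hp0.le
      rw [← ENNReal.rpow_mul, mul_comm θ p, hpθ', ENNReal.rpow_one] at h6
      exact h6
    · rw [indicator_of_notMem hy]
      have : {t : ℝ | (i.insertNth t y : Fin (k + 1) → ℝ) ∈ S} = ∅ := by
        rw [eq_empty_iff_forall_notMem]
        intro t ht
        exact hy ((hmem t y).1 ht.1).2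
      rw [this, measure_empty]
  have hvol : volume S ≤ M * V := by
    have hmp := (volume_preserving_piFinSuccAbove (fun _ : Fin (k + 1) => ℝ) i).symm
    rw [← hmp.measure_preimage hmeas.nullMeasurableSet, Measure.volume_eq_prod,
      Measure.prod_apply_symm (hmp.measurable hmeas)]
    calc ∫⁻ y : Fin k → ℝ, volume ((fun t : ℝ => (t, y)) ⁻¹'
          ((MeasurableEquiv.piFinSuccAbove (fun _ : Fin (k + 1) => ℝ) i).symm ⁻¹' S))
        ≤ ∫⁻ y : Fin k → ℝ, W.indicator (fun _ => M) y := by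
          apply lintegral_mono
          intro y
          exact hslice y
      _ = M * V := by rw [lintegral_indicator_const hWm, hWV]
  calc ENNReal.ofReal s * volume S ^ θ ≤ ENNReal.ofReal s * (M * V) ^ θ := by
        gcongr
    _ = ENNReal.ofReal s * (M ^ θ * V ^ θ) := by rw [ENNReal.mul_rpow_of_nonneg _ _ hθ0.le]
    _ = ENNReal.ofReal s * ((B / ENNReal.ofReal s) * V ^ θ) := by
        rw [hM, ← ENNReal.rpow_mul, hpθ', ENNReal.rpow_one]
    _ = B * V ^ θ := by
        rw [← mul_assoc, ENNReal.mul_div_cancel hs' ENNReal.ofReal_ne_top]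

/-- Every point `x₀` of the open set `U` of `ℝ^m` is the centre of an open cube contained in `U` such
that all coefficients `a_1, …, a_n` are of class `C^{n-1,1}` along the lines parallel to the `i`-th
axis which meet the cube (on the segments over the closed side), with bounded norms. -/
def LocallyHolderAlong {m : ℕ} (n : ℕ) (i : Fin m) (U : Set (Fin m → ℝ))
    (a : ℕ → (Fin m → ℝ) → ℂ) : Prop :=
  ∀ x₀ ∈ U, ∃ r > 0, ∃ B : ℝ≥0, box (fun l => x₀ l - r) (fun l => x₀ l + r) ⊆ U ∧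
    ∀ j ∈ Finset.Icc 1 n, ∀ x ∈ box (fun l => x₀ l - r) (fun l => x₀ l + r),
      HolderClass (n - 1) (x₀ i - r) (x₀ i + r) (fun t => a j (Function.update x i t)) ∧
        holderNorm (n - 1) (x₀ i - r) (x₀ i + r) (fun t => a j (Function.update x i t)) ≤ B

/-- iterated partial derivatives in one direction -/
noncomputable def P {m : ℕ} (i : Fin m) (f : (Fin m → ℝ) → ℂ) : ℕ → (Fin m → ℝ) → ℂ
  | 0 => f
  | l + 1 => fun x => fderiv ℝ (P i f l) x (Pi.single i 1)

theorem P_smooth {m : ℕ} (i : Fin m) {U : Set (Fin m → ℝ)} (hU : IsOpen U)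
    {f : (Fin m → ℝ) → ℂ} (l : ℕ) : ∀ k : ℕ, ContDiffOn ℝ ((k + l : ℕ) : WithTop ℕ∞) f U →
      ContDiffOn ℝ (k : WithTop ℕ∞) (P i f l) U := by
  induction l with
  | zero =>
    intro k hk
    have h0 : P i f 0 = f := rfl
    rw [h0]
    simpa using hk
  | succ l ih =>
    intro k hk
    have h1 := ih (k + 1) (by
      have e : k + 1 + l = k + (l + 1) := by ring
      rw [e]; exact hk)
    have h2 : ContDiffOn ℝ (k : WithTop ℕ∞) (fderiv ℝ (P i f l)) U := by
      apply h1.fderiv_of_isOpen hU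
      norm_cast
    exact h2.clm_apply contDiffOn_const

theorem upd_hasDerivAt {m : ℕ} (i : Fin m) (x : Fin m → ℝ) (t : ℝ) :
    HasDerivAt (fun t : ℝ => Function.update x i t) (Pi.single i 1) t := hasDerivAt_update x i t

theorem P_deriv {m : ℕ} (i : Fin m) {U : Set (Fin m → ℝ)} (hU : IsOpen U)
    {f : (Fin m → ℝ) → ℂ} {n l : ℕ} (hl : l < n) (hf : ContDiffOn ℝ (n : WithTop ℕ∞) f U)
    (x : Fin m → ℝ) (t : ℝ) (ht : Function.update x i t ∈ U) :
    HasDerivAt (fun t : ℝ => P i f l (Function.update x i t)) (P i f (l + 1) (Function.update x i t)) t := by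
  have h1 := P_smooth i hU (f := f) l (n - l) (by
    have e : n - l + l = n := by omega
    rw [e]; exact hf)
  have h2 : DifferentiableAt ℝ (P i f l) (Function.update x i t) := by
    apply (h1.contDiffAt (hU.mem_nhds ht)).differentiableAt
    have : n - l ≠ 0 := by omega
    exact_mod_cast this
  exact h2.hasFDerivAt.comp_hasDerivAt t (upd_hasDerivAt i x t)

theorem slice_eq {m : ℕ} (i : Fin m) {U : Set (Fin m → ℝ)} (hU : IsOpen U)
    {f : (Fin m → ℝ) → ℂ} {n : ℕ} (hf : ContDiffOn ℝ (n : WithTop ℕ∞) f U)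
    (x : Fin m → ℝ) {α β : ℝ} (hαβ : α < β) (hx : ∀ t ∈ Icc α β, Function.update x i t ∈ U) (l : ℕ) :
    l ≤ n → ∀ t ∈ Icc α β,
      iteratedDerivWithin l (fun t => f (Function.update x i t)) (Icc α β) t =
        P i f l (Function.update x i t) := by
  induction l with
  | zero => intro _ t _; simp [P]
  | succ l ih =>
    intro hl t ht
    rw [iteratedDerivWithin_succ]
    have h1 : derivWithin (iteratedDerivWithin l (fun t => f (Function.update x i t)) (Icc α β))
        (Icc α β) t = derivWithin (fun t => P i f l (Function.update x i t)) (Icc α β) t :=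
      derivWithin_congr (fun s hs => ih (by omega) s hs) (ih (by omega) t ht)
    rw [h1]
    exact (P_deriv i hU (by omega : l < n) hf x t (hx t ht)).hasDerivWithinAt.derivWithin
      (uniqueDiffOn_Icc hαβ t ht)

theorem slice_bound {m : ℕ} (i : Fin m) {U : Set (Fin m → ℝ)} (hU : IsOpen U)
    {f : (Fin m → ℝ) → ℂ} {n : ℕ} (hn : 1 ≤ n) (hf : ContDiffOn ℝ (n : WithTop ℕ∞) f U)
    (x : Fin m → ℝ) {α β : ℝ} (hαβ : α < β) (hx : ∀ t ∈ Icc α β, Function.update x i t ∈ U)
    (B : ℝ≥0) (hB : ∀ l ≤ n, ∀ t ∈ Icc α β, ‖P i f l (Function.update x i t)‖₊ ≤ B) :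
    HolderClass (n - 1) α β (fun t => f (Function.update x i t)) ∧
      holderNorm (n - 1) α β (fun t => f (Function.update x i t)) ≤ B := by
  have hlip : LipschitzOnWith B (iteratedDerivWithin (n - 1) (fun t => f (Function.update x i t))
      (Icc α β)) (Icc α β) := by
    have h1 : LipschitzOnWith B (fun t => P i f (n - 1) (Function.update x i t)) (Icc α β) := by
      refine Convex.lipschitzOnWith_of_nnnorm_hasDerivWithin_le (𝕜 := ℝ)
        (f' := fun t => P i f (n - 1 + 1) (Function.update x i t)) (convex_Icc α β) ?_ ?_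
      · intro t ht
        exact (P_deriv i hU (by omega : n - 1 < n) hf x t (hx t ht)).hasDerivWithinAt
      · intro t ht
        exact hB _ (by omega) t ht
    intro s hs t ht
    rw [slice_eq i hU hf x hαβ hx (n - 1) (by omega) s hs,
      slice_eq i hU hf x hαβ hx (n - 1) (by omega) t ht]
    exact h1 hs ht
  refine ⟨⟨?_, B, hlip⟩, ?_⟩
  · have h1 : ContDiffOn ℝ (n - 1 : ℕ) f U := hf.of_le (by norm_cast; omega)
    refine h1.comp ?_ hx
    apply ContDiff.contDiffOn
    rw [contDiff_pi]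
    intro l
    by_cases hl : l = i
    · subst hl; simp only [Function.update_self]; exact contDiff_id
    · simp only [Function.update_of_ne hl]; exact contDiff_const
  · unfold holderNorm
    apply max_le
    · refine iSup₂_le fun l hl => iSup₂_le fun t ht => ?_
      rw [Finset.mem_range] at hl
      rw [slice_eq i hU hf x hαβ hx l (by omega) t ht]
      have := hB l (by omega) t ht
      rw [enorm_eq_nnnorm]
      exact_mod_cast this
    · refine iSup₂_le fun s hs => iSup₂_le fun t ht => ?_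
      apply ENNReal.div_le_of_le_mul
      have := hlip hs ht
      rwa [edist_eq_enorm_sub, edist_eq_enorm_sub] at this

theorem locally_of_contDiff {m : ℕ} (i : Fin m) {U : Set (Fin m → ℝ)} (hU : IsOpen U) {n : ℕ}
    (hn : 1 ≤ n) {a : ℕ → (Fin m → ℝ) → ℂ}
    (ha : ∀ j ∈ Finset.Icc 1 n, ContDiffOn ℝ (n : WithTop ℕ∞) (a j) U) :
    LocallyHolderAlong n i U a := by
  intro x₀ hx₀
  obtain ⟨r, hr, hrU⟩ := Metric.nhds_basis_closedBall.mem_iff.1 (hU.mem_nhds hx₀)
  have hbox : box (fun l => x₀ l - r) (fun l => x₀ l + r) ⊆ Metric.closedBall x₀ r := by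
    intro x hx
    rw [Metric.mem_closedBall, dist_pi_le_iff hr.le]
    intro l
    have h1 := hx l (mem_univ _)
    rw [Real.dist_eq, abs_le]
    constructor <;> linarith [h1.1, h1.2]
  have hupd : ∀ x ∈ box (fun l => x₀ l - r) (fun l => x₀ l + r), ∀ t ∈ Icc (x₀ i - r) (x₀ i + r),
      Function.update x i t ∈ Metric.closedBall x₀ r := by
    intro x hx t ht
    rw [Metric.mem_closedBall, dist_pi_le_iff hr.le]
    intro l
    rw [Real.dist_eq, abs_le]
    by_cases hl : l = i
    · subst hl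
      simp only [Function.update_self]
      constructor <;> linarith [ht.1, ht.2]
    · simp only [Function.update_of_ne hl]
      have h1 := hx l (mem_univ _)
      constructor <;> linarith [h1.1, h1.2]
  have hb : ∀ j l : ℕ, ∃ B : ℝ≥0, j ∈ Finset.Icc 1 n → l ≤ n → ∀ y ∈ Metric.closedBall x₀ r,
      ‖P i (a j) l y‖₊ ≤ B := by
    intro j l
    by_cases hj : j ∈ Finset.Icc 1 n
    · by_cases hl : l ≤ n
      · have h1 := P_smooth i hU (f := a j) l 0 ((ha j hj).of_le (by norm_cast; omega))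
        obtain ⟨B, hB⟩ := (isCompact_closedBall x₀ r).exists_bound_of_continuousOn
          (h1.continuousOn.mono hrU)
        refine ⟨B.toNNReal, fun _ _ y hy => ?_⟩
        rw [← NNReal.coe_le_coe, coe_nnnorm]
        exact (hB y hy).trans (Real.le_coe_toNNReal B)
      · exact ⟨0, fun _ h => absurd h hl⟩
    · exact ⟨0, fun h => absurd h hj⟩
  choose B hB using hb
  refine ⟨r, hr, ∑ j ∈ Finset.Icc 1 n, ∑ l ∈ Finset.range (n + 1), B j l, hbox.trans hrU, ?_⟩
  intro j hj x hx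
  refine slice_bound i hU hn (ha j hj) x (by linarith) (fun t ht => hrU (hupd x hx t ht)) _ ?_
  intro l hl t ht
  refine (hB j l hj hl _ (hupd x hx t ht)).trans ?_
  refine le_trans ?_ (Finset.single_le_sum (f := fun j => ∑ l ∈ Finset.range (n + 1), B j l)
    (fun _ _ => zero_le) hj)
  exact Finset.single_le_sum (f := fun l => B j l) (fun _ _ => zero_le)
    (Finset.mem_range.2 (by omega))

theorem vol_le {m : ℕ} {p : ℝ} (hp : 0 < p) (Q : Set (Fin m → ℝ)) (f : (Fin m → ℝ) → ℂ) (s : ℝ)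
    (hs : 0 < s) :
    volume {x | x ∈ Q ∧ s < ‖f x‖} ≤ (weakNormIn p Q f / ENNReal.ofReal s) ^ p := by
  have hs' : ENNReal.ofReal s ≠ 0 := by
    simp only [ne_eq, ENNReal.ofReal_eq_zero, not_le]; exact hs
  have h4 : ENNReal.ofReal s * volume {x | x ∈ Q ∧ s < ‖f x‖} ^ (1 / p) ≤ weakNormIn p Q f :=
    le_iSup₂ (f := fun (s : ℝ) (_ : 0 < s) =>
      ENNReal.ofReal s * volume {x | x ∈ Q ∧ s < ‖f x‖} ^ (1 / p)) s hs
  have h5 : volume {x | x ∈ Q ∧ s < ‖f x‖} ^ (1 / p) ≤ weakNormIn p Q f / ENNReal.ofReal s := by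
    rw [ENNReal.le_div_iff_mul_le (Or.inl hs') (Or.inl ENNReal.ofReal_ne_top), mul_comm]
    exact h4
  have h6 := ENNReal.rpow_le_rpow h5 hp.le
  rw [← ENNReal.rpow_mul, one_div_mul_cancel hp.ne', ENNReal.rpow_one] at h6
  exact h6

/-- finitely many sets of finite weak norm -/
theorem weak_union {m : ℕ} {p : ℝ} (hp : 0 < p) {ι : Type*} (T : Finset ι)
    (Q : ι → Set (Fin m → ℝ)) (K : Set (Fin m → ℝ)) (hK : K ⊆ ⋃ t ∈ T, Q t)
    (f : (Fin m → ℝ) → ℂ) (hf : ∀ t ∈ T, weakNormIn p (Q t) f < ∞) : weakNormIn p K f < ∞ := by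
  have h1 : weakNormIn p K f ≤ (∑ t ∈ T, weakNormIn p (Q t) f ^ p) ^ (1 / p) := by
    unfold weakNormIn
    refine iSup₂_le fun s hs => ?_
    have hs' : ENNReal.ofReal s ≠ 0 := by
      simp only [ne_eq, ENNReal.ofReal_eq_zero, not_le]; exact hs
    have h2 : volume {x | x ∈ K ∧ s < ‖f x‖} ≤
        ∑ t ∈ T, (weakNormIn p (Q t) f / ENNReal.ofReal s) ^ p := by
      calc volume {x | x ∈ K ∧ s < ‖f x‖} ≤ volume (⋃ t ∈ T, {x | x ∈ Q t ∧ s < ‖f x‖}) := by
            apply measure_mono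
            rintro x ⟨hx, hxs⟩
            have := hK hx
            simp only [mem_iUnion, exists_prop] at this ⊢
            obtain ⟨t, ht, hxt⟩ := this
            exact ⟨t, ht, hxt, hxs⟩
        _ ≤ ∑ t ∈ T, volume {x | x ∈ Q t ∧ s < ‖f x‖} := measure_biUnion_finset_le _ _
        _ ≤ _ := Finset.sum_le_sum fun t _ => vol_le hp _ _ s hs
    have h3 : ∑ t ∈ T, (weakNormIn p (Q t) f / ENNReal.ofReal s) ^ p =
        (∑ t ∈ T, weakNormIn p (Q t) f ^ p) / ENNReal.ofReal s ^ p := by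
      rw [div_eq_mul_inv, Finset.sum_mul]
      refine Finset.sum_congr rfl fun t _ => ?_
      rw [ENNReal.div_rpow_of_nonneg _ _ hp.le, div_eq_mul_inv]
    rw [h3] at h2
    have h4 := ENNReal.rpow_le_rpow h2 (one_div_pos.2 hp).le
    rw [ENNReal.div_rpow_of_nonneg _ _ (one_div_pos.2 hp).le, ← ENNReal.rpow_mul (ENNReal.ofReal s),
      mul_one_div_cancel hp.ne', ENNReal.rpow_one] at h4
    calc ENNReal.ofReal s * volume {x | x ∈ K ∧ s < ‖f x‖} ^ (1 / p)
        ≤ ENNReal.ofReal s * ((∑ t ∈ T, weakNormIn p (Q t) f ^ p) ^ (1 / p) / ENNReal.ofReal s) := by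
          gcongr
      _ = (∑ t ∈ T, weakNormIn p (Q t) f ^ p) ^ (1 / p) :=
          ENNReal.mul_div_cancel hs' ENNReal.ofReal_ne_top
  refine h1.trans_lt (ENNReal.rpow_lt_top_of_nonneg (one_div_pos.2 hp).le ?_)
  rw [← lt_top_iff_ne_top, ENNReal.sum_lt_top]
  intro t ht
  exact ENNReal.rpow_lt_top_of_nonneg hp.le (hf t ht).ne

theorem local_bound {n : ℕ} (hn : 2 ≤ n) (hp0 : 0 < (n:ℝ) / ((n:ℝ) - 1)) {C : ℝ≥0}
    (part1 : ∀ (m : ℕ) (α β : Fin m → ℝ), (∀ l, α l < β l) → ∀ a : ℕ → (Fin m → ℝ) → ℂ,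
      ∀ lam : (Fin m → ℝ) → ℂ, ContinuousOn lam (box α β) →
      (∀ x ∈ box α β, lam x ^ n + ∑ j ∈ Finset.Icc 1 n, a j x * lam x ^ (n - j) = 0) →
      ∀ i : Fin m, (∀ j ∈ Finset.Icc 1 n, ∀ x ∈ box α β,
        HolderClass (n - 1) (α i) (β i) (fun t => a j (Function.update x i t))) →
      weakNormIn ((n:ℝ) / ((n:ℝ) - 1)) (box α β) (pderiv i lam) ≤
        C * max 1 (ENNReal.ofReal (β i - α i) ^ (((n:ℝ) - 1) / n)) *
          (∏ l ∈ Finset.univ.erase i, ENNReal.ofReal (β l - α l)) ^ (((n:ℝ) - 1) / n) *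
          ⨆ j ∈ Finset.Icc 1 n, ⨆ x ∈ box α β,
            holderNorm (n - 1) (α i) (β i) (fun t => a j (Function.update x i t)) ^ (1 / (j:ℝ)))
    {m : ℕ} {U : Set (Fin m → ℝ)} (_hU : IsOpen U) {a : ℕ → (Fin m → ℝ) → ℂ}
    {lam : (Fin m → ℝ) → ℂ} (hlam : ContinuousOn lam U)
    (hroot : ∀ x ∈ U, lam x ^ n + ∑ j ∈ Finset.Icc 1 n, a j x * lam x ^ (n - j) = 0)
    {i : Fin m} (ha : LocallyHolderAlong n i U a)
    {K : Set (Fin m → ℝ)} (hK : IsCompact K) (hKU : K ⊆ U) :
    weakNormIn ((n:ℝ) / ((n:ℝ) - 1)) K (pderiv i lam) < ∞ := by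
  have hn' : (2:ℝ) ≤ n := by exact_mod_cast hn
  choose! r hr B hU' hB using ha
  have hbox : ∀ x₀ ∈ U, weakNormIn ((n:ℝ) / ((n:ℝ) - 1))
      (box (fun l => x₀ l - r x₀) (fun l => x₀ l + r x₀)) (pderiv i lam) < ∞ := by
    intro x₀ hx₀
    refine (part1 m _ _ (fun l => by have := hr x₀ hx₀; linarith) a lam
      (hlam.mono (hU' x₀ hx₀)) (fun x hx => hroot x (hU' x₀ hx₀ hx)) i
      (fun j hj x hx => (hB x₀ hx₀ j hj x hx).1)).trans_lt ?_
    have h1 : (⨆ j ∈ Finset.Icc 1 n, ⨆ x ∈ box (fun l => x₀ l - r x₀) (fun l => x₀ l + r x₀),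
        holderNorm (n - 1) (x₀ i - r x₀) (x₀ i + r x₀)
          (fun t => a j (Function.update x i t)) ^ (1 / (j:ℝ))) ≤
        ∑ j ∈ Finset.Icc 1 n, (B x₀ : ℝ≥0∞) ^ (1 / (j:ℝ)) := by
      refine iSup₂_le fun j hj => iSup₂_le fun x hx => ?_
      refine le_trans ?_ (Finset.single_le_sum (f := fun j : ℕ => (B x₀ : ℝ≥0∞) ^ (1 / (j:ℝ)))
        (fun _ _ => zero_le) hj)
      exact ENNReal.rpow_le_rpow (hB x₀ hx₀ j hj x hx).2 (by positivity)
    have h2 : ∑ j ∈ Finset.Icc 1 n, (B x₀ : ℝ≥0∞) ^ (1 / (j:ℝ)) < ∞ := by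
      rw [ENNReal.sum_lt_top]
      intro j _
      exact ENNReal.rpow_lt_top_of_nonneg (by positivity) ENNReal.coe_ne_top
    have hθ0 : 0 ≤ ((n:ℝ) - 1) / n := div_nonneg (by linarith) (by linarith)
    refine ENNReal.mul_lt_top (ENNReal.mul_lt_top (ENNReal.mul_lt_top ENNReal.coe_lt_top ?_) ?_)
      (h1.trans_lt h2)
    · exact max_lt ENNReal.one_lt_top (ENNReal.rpow_lt_top_of_nonneg hθ0 ENNReal.ofReal_ne_top)
    · exact ENNReal.rpow_lt_top_of_nonneg hθ0 (ENNReal.prod_ne_top fun l _ => ENNReal.ofReal_ne_top)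
  obtain ⟨T, hKT⟩ := hK.elim_nhds_subcover'
    (fun x _ => box (fun l => x l - r x) (fun l => x l + r x)) (fun x hx => by
      apply IsOpen.mem_nhds (isOpen_set_pi finite_univ fun l _ => isOpen_Ioo)
      intro l _
      have := hr x (hKU hx)
      constructor <;> linarith)
  refine weak_union hp0 T (fun x => box (fun l => (x : Fin m → ℝ) l - r x)
    (fun l => (x : Fin m → ℝ) l + r x)) K hKT _ ?_
  intro x _
  exact hbox x (hKU x.2)


/-- **Several parameters.** For every `n ≥ 2` there is a constant `C` depending only on `n` such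
that:

(1) for every `m`, every bounded box `Q = ∏ (α l, β l)` of `ℝ^m`, all coefficients `a_1, …, a_n`,
every continuous root `lam` on `Q` of `Z^n + ∑ a_j Z^(n-j)` and every `i`: if the `a_j` are of class
`C^{n-1,1}([α i, β i])` along all lines parallel to the `i`-th axis which meet `Q`, then the weak
`L^{n/(n-1)}` quasinorm on `Q` of the partial derivative `∂_i lam` is at most
`C max (1, (β i - α i)^((n-1)/n)) (∏_{l ≠ i} (β l - α l))^((n-1)/n)` times the supremum over `j` and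
over these lines of `‖a_j‖_{C^{n-1,1}}^(1/j)`; no other regularity of the coefficients is assumed;

(2) for every open `U ⊆ ℝ^m`, all coefficients which are locally of class `C^{n-1,1}` along the
lines parallel to the `i`-th axis, with locally bounded norms, and every continuous root `lam` on
`U`, the partial derivative `∂_i lam` is in weak `L^{n/(n-1)}` on every compact subset of `U`;

(3) in particular, for every open `U ⊆ ℝ^m`, all coefficients of class `C^n` on `U` and every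
continuous root `lam` on `U`, all partial derivatives of `lam` are in weak `L^{n/(n-1)}` on every
compact subset of `U`;

(4) one parameter (Q1 and Q2 of the problem): `deriv lam` is in weak `L^{n/(n-1)}` on `(α, β)`, with
the bound `C max (1, (β - α)^((n-1)/n)) max_j ‖a_j‖^(1/j)`. -/
theorem result : ∀ n : ℕ, 2 ≤ n → ∃ C : ℝ≥0,
    (∀ (m : ℕ) (α β : Fin m → ℝ), (∀ l, α l < β l) → ∀ a : ℕ → (Fin m → ℝ) → ℂ,
      ∀ lam : (Fin m → ℝ) → ℂ, ContinuousOn lam (box α β) →
      (∀ x ∈ box α β, lam x ^ n + ∑ j ∈ Finset.Icc 1 n, a j x * lam x ^ (n - j) = 0) →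
      ∀ i : Fin m, (∀ j ∈ Finset.Icc 1 n, ∀ x ∈ box α β,
        HolderClass (n - 1) (α i) (β i) (fun t => a j (Function.update x i t))) →
      weakNormIn ((n:ℝ) / ((n:ℝ) - 1)) (box α β) (pderiv i lam) ≤
        C * max 1 (ENNReal.ofReal (β i - α i) ^ (((n:ℝ) - 1) / n)) *
          (∏ l ∈ Finset.univ.erase i, ENNReal.ofReal (β l - α l)) ^ (((n:ℝ) - 1) / n) *
          ⨆ j ∈ Finset.Icc 1 n, ⨆ x ∈ box α β,
            holderNorm (n - 1) (α i) (β i) (fun t => a j (Function.update x i t)) ^ (1 / (j:ℝ))) ∧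
    (∀ (m : ℕ) (U : Set (Fin m → ℝ)), IsOpen U → ∀ a : ℕ → (Fin m → ℝ) → ℂ,
      ∀ lam : (Fin m → ℝ) → ℂ, ContinuousOn lam U →
      (∀ x ∈ U, lam x ^ n + ∑ j ∈ Finset.Icc 1 n, a j x * lam x ^ (n - j) = 0) →
      ∀ i : Fin m, LocallyHolderAlong n i U a →
      ∀ K : Set (Fin m → ℝ), IsCompact K → K ⊆ U →
        weakNormIn ((n:ℝ) / ((n:ℝ) - 1)) K (pderiv i lam) < ∞) ∧
    (∀ (m : ℕ) (U : Set (Fin m → ℝ)), IsOpen U → ∀ a : ℕ → (Fin m → ℝ) → ℂ,
      (∀ j ∈ Finset.Icc 1 n, ContDiffOn ℝ n (a j) U) →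
      ∀ lam : (Fin m → ℝ) → ℂ, ContinuousOn lam U →
      (∀ x ∈ U, lam x ^ n + ∑ j ∈ Finset.Icc 1 n, a j x * lam x ^ (n - j) = 0) →
      ∀ i : Fin m, ∀ K : Set (Fin m → ℝ), IsCompact K → K ⊆ U →
        weakNormIn ((n:ℝ) / ((n:ℝ) - 1)) K (pderiv i lam) < ∞) ∧
    (∀ α β : ℝ, α < β → ∀ a : ℕ → ℝ → ℂ,
      (∀ j ∈ Finset.Icc 1 n, HolderClass (n - 1) α β (a j)) →
      ∀ lam : ℝ → ℂ, ContinuousOn lam (Ioo α β) →
      (∀ t ∈ Ioo α β, lam t ^ n + ∑ j ∈ Finset.Icc 1 n, a j t * lam t ^ (n - j) = 0) →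
      weakNorm ((n:ℝ) / ((n:ℝ) - 1)) (Ioo α β) (deriv lam) < ∞ ∧
      weakNorm ((n:ℝ) / ((n:ℝ) - 1)) (Ioo α β) (deriv lam) ≤
        C * max 1 (ENNReal.ofReal (β - α) ^ (((n:ℝ) - 1) / n)) *
          ⨆ j ∈ Finset.Icc 1 n, holderNorm (n - 1) α β (a j) ^ (1 / (j:ℝ))) := by
  intro n hn
  obtain ⟨C, hC⟩ := WeakType.result n hn
  have hC' := fun α β hαβ a ha lam hlam hroot => (hC α β hαβ a ha lam hlam hroot).2
  have hn' : (2:ℝ) ≤ n := by exact_mod_cast hn
  have hp0 : 0 < (n:ℝ) / ((n:ℝ) - 1) := div_pos (by linarith) (by linarith)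
  have part1 : ∀ (m : ℕ) (α β : Fin m → ℝ), (∀ l, α l < β l) → ∀ a : ℕ → (Fin m → ℝ) → ℂ,
      ∀ lam : (Fin m → ℝ) → ℂ, ContinuousOn lam (box α β) →
      (∀ x ∈ box α β, lam x ^ n + ∑ j ∈ Finset.Icc 1 n, a j x * lam x ^ (n - j) = 0) →
      ∀ i : Fin m, (∀ j ∈ Finset.Icc 1 n, ∀ x ∈ box α β,
        HolderClass (n - 1) (α i) (β i) (fun t => a j (Function.update x i t))) →
      weakNormIn ((n:ℝ) / ((n:ℝ) - 1)) (box α β) (pderiv i lam) ≤
        C * max 1 (ENNReal.ofReal (β i - α i) ^ (((n:ℝ) - 1) / n)) *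
          (∏ l ∈ Finset.univ.erase i, ENNReal.ofReal (β l - α l)) ^ (((n:ℝ) - 1) / n) *
          ⨆ j ∈ Finset.Icc 1 n, ⨆ x ∈ box α β,
            holderNorm (n - 1) (α i) (β i) (fun t => a j (Function.update x i t)) ^ (1 / (j:ℝ)) := by
    intro m α β hαβ a lam hlam hroot i ha
    obtain ⟨k, rfl⟩ : ∃ k, m = k + 1 := ⟨m - 1, by have := i.pos; omega⟩
    refine (main hn hC' k α β hαβ a lam hlam hroot i ha).trans (le_of_eq ?_)
    have h1 : ∏ l ∈ Finset.univ.erase i, ENNReal.ofReal (β l - α l) =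
        ∏ l : Fin k, ENNReal.ofReal (β (i.succAbove l) - α (i.succAbove l)) := by
      rw [← Finset.compl_singleton, ← Fin.image_succAbove_univ, Finset.prod_image]
      intro x _ y _ hxy
      exact Fin.succAbove_right_injective hxy
    rw [h1]
    ring
  have part2 : ∀ (m : ℕ) (U : Set (Fin m → ℝ)), IsOpen U → ∀ a : ℕ → (Fin m → ℝ) → ℂ,
      ∀ lam : (Fin m → ℝ) → ℂ, ContinuousOn lam U →
      (∀ x ∈ U, lam x ^ n + ∑ j ∈ Finset.Icc 1 n, a j x * lam x ^ (n - j) = 0) →
      ∀ i : Fin m, LocallyHolderAlong n i U a →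
      ∀ K : Set (Fin m → ℝ), IsCompact K → K ⊆ U →
        weakNormIn ((n:ℝ) / ((n:ℝ) - 1)) K (pderiv i lam) < ∞ := by
    intro m U hU a lam hlam hroot i ha K hK hKU
    exact local_bound hn hp0 part1 hU hlam hroot ha hK hKU
  exact ⟨C, part1, part2, fun m U hU a ha lam hlam hroot i K hK hKU =>
    part2 m U hU a lam hlam hroot i (locally_of_contDiff i hU (by omega) ha) K hK hKU,
    fun α β hαβ a ha lam hlam hroot => hC α β hαβ a ha lam hlam hroot⟩

end Pool.Agent.Results.MP_6562b9_an.SeveralVariables
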